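import Pool.Agent.Run7.h278.LG.FamCor
import Pool.Agent.Run7.h278.LG.Str

set_option autoImplicit false

/-!
# Linear relations which link the zeros of two sets of Artin L-functions, and asymptotic independence of sums over primes

Let `F/ℚ` be a finite Galois extension for which Artin's conjecture holds, with the irreducible characters `χ`, and choose
positive integers `d_χ = d_χ̄`.  Let `S` be a set of irreducible characters which is closed under conjugation, and put
`A_S(u) = e^(u/2) (∑_{n ≤ e^u} λ_S(n) (1/n - e^(-u)) - m_S u + c_S)`, `-∑_{χ ∈ S} d_χ L'/L(s, χ) = ∑ λ_S(n) n^(-s)`.  Let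
`T_S` be the set of the positive ordinates of the zeros of the `L(s, χ)`, `χ ∈ S`, on the critical line.  For two such sets
`S`, `S'` the functions `A_S` and `A_S'` are bounded and asymptotically independent exactly if the Riemann hypothesis
holds for the `L(s, χ)`, `χ ∈ S ∪ S'`, and no real number different from `0` is an integral linear combination of elements
of `T_S` and also one of elements of `T_S'`.
-/

namespace Pool.Agent.Results.MP_0f5a55_nt.AsymptoticIndependence

open Filter Topology MeasureTheory Set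
open Run7.h278.LG (LFun ordAt)

/-- the Abel mean -/
noncomputable def mean (f : ℝ → ℝ) (δ : ℝ) : ℝ := δ * ∫ u : ℝ in Ioi 0, Real.exp (-δ * u) * f u

/-- bounded on `(0, ∞)` -/
def Bounded (f : ℝ → ℝ) : Prop := ∃ B : ℝ, ∀ u : ℝ, 0 < u → |f u| ≤ B

/-- the functions are asymptotically independent -/
def Independent (f g : ℝ → ℝ) : Prop := ∀ φ ψ : ℝ → ℝ, Continuous φ → Continuous ψ →
  Tendsto (fun δ => mean (fun u => φ (f u) * ψ (g u)) δ - mean (fun u => φ (f u)) δ * mean (fun u => ψ (g u)) δ) (𝓝[>] 0) (𝓝 0)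

/-- the sums of `p` elements of `T` with signs -/
def Sums (T : Set ℝ) (p : ℕ) : Set ℝ :=
  {x : ℝ | ∃ s : Multiset ℝ, Multiset.card s = p ∧ (∀ y ∈ s, y ∈ T ∨ -y ∈ T) ∧ s.sum = x}

/-- only `0` is an integral linear combination of elements of `T` and also one of elements of `T'` -/
def Unlinked (T T' : Set ℝ) : Prop := ∀ x : ℝ, x ∈ AddSubgroup.closure T → x ∈ AddSubgroup.closure T' → x = 0

section

variable {K : Type} (L : K → LFun) (d : K → ℕ) (S : Finset K)

/-- the coefficients of `-∑ d_j L_j'/L_j`, `j ∈ S` -/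
noncomputable def lam (n : ℕ) : ℝ := ArithmeticFunction.vonMangoldt n * (∑ j ∈ S, (d j : ℂ) * (L j).c n).re

/-- the total order of the pole at `1` -/
noncomputable def pole : ℝ := ∑ j ∈ S, (d j : ℝ) * (L j).pole

/-- the function `A_S` with the constant `c` -/
noncomputable def A (c u : ℝ) : ℝ :=
  Real.exp (u / 2) * (∑ n ∈ Finset.Icc 1 ⌊Real.exp u⌋₊, lam L d S n * (1 / (n : ℝ) - Real.exp (-u)) - pole L d S * u + c)

/-- `c` is the constant of `S` -/
def IsConst (c : ℝ) : Prop :=
  Tendsto (fun σ : ℝ => pole L d S / (σ - 1) - ∑' n : ℕ, lam L d S n / (n : ℝ) ^ σ) (𝓝[>] 1) (𝓝 (c - pole L d S))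

/-- the coefficients of `S` are real -/
def IsReal : Prop := ∀ n, ArithmeticFunction.vonMangoldt n ≠ 0 → (∑ j ∈ S, (d j : ℂ) * (L j).c n).im = 0

/-- the Riemann hypothesis for the members of `S` -/
def GRH : Prop := ∀ j ∈ S, ∀ ρ : ℂ, (L j).Λ ρ = 0 → ρ.re = 1 / 2

/-- the total order of vanishing at `1/2 + i t` -/
noncomputable def total (t : ℝ) : ℝ := ∑ j ∈ S, (d j : ℝ) * ordAt (L j).Λ (1 / 2 + t * Complex.I)

/-- the positive ordinates on the critical line -/
def Ords : Set ℝ := {t : ℝ | 0 < t ∧ ∃ j ∈ S, (L j).Λ (1 / 2 + t * Complex.I) = 0}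

/-- the pairs of a member of the whole family and a zero in the upper half plane of its completion -/
abbrev Zeros : Type := {p : K × ℂ // 0 < p.2.im ∧ (L p.1).Λ p.2 = 0}

end

open Run7.h278.LG Run7.h278

/-- linear independence of the ordinates of the whole family excludes the links -/
theorem li_unlinked {K : Type} (L : K → LFun) (S S' : Finset K) (hd : Disjoint S S')
    (h : LinearIndependent ℚ fun p : Zeros L => p.1.2.im) : Unlinked (Ords L S) (Ords L S') := by
  have hsub : ∀ S : Finset K, ∀ x ∈ AddSubgroup.closure (Ords L S),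
      x ∈ Submodule.span ℚ ((fun p : Zeros L => p.1.2.im) '' {p | p.1.1 ∈ S}) := by
    intro S x hx
    induction hx using AddSubgroup.closure_induction with
    | mem y hy =>
      obtain ⟨h1, j, h2, h3⟩ := hy
      refine Submodule.subset_span ⟨⟨(j, 1 / 2 + y * Complex.I), ?_, h3⟩, h2, ?_⟩
      · simpa using h1
      · simp
    | zero => exact Submodule.zero_mem _
    | add y z _ _ hy hz => exact Submodule.add_mem _ hy hz
    | neg y _ hy => exact Submodule.neg_mem _ hy
  intro x hx hx'
  have h1 := h.disjoint_span_image (s := {p : Zeros L | p.1.1 ∈ S}) (t := {p : Zeros L | p.1.1 ∈ S'}) (by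
    rw [Set.disjoint_left]
    intro p hp hp'
    exact Finset.disjoint_left.1 hd hp hp')
  exact Submodule.disjoint_def.1 h1 x (hsub S x hx) (hsub S' x hx')

section

variable {K : Type} (L : K → LFun) (d : K → ℕ) (S : Finset K)

theorem lam_eq : lamF (fun j : S => (L j.1).c) (fun j : S => d j.1) = lam L d S := by
  funext n
  unfold lamF lam
  congr 2
  rw [← Finset.sum_coe_sort S]

theorem m_eq : mF (fun j : S => (L j.1).pole) (fun j : S => d j.1) = pole L d S := by
  unfold mF pole
  rw [← Finset.sum_coe_sort S]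

theorem ords_eq : TS (fun j : S => (L j.1).Λ) = Ords L S := by
  ext t
  unfold TS Ords
  simp only [Set.mem_ofPred_eq]
  refine and_congr_right fun _ => ?_
  constructor
  · rintro ⟨j, h⟩
    exact ⟨j.1, j.2, h⟩
  · rintro ⟨j, h1, h⟩
    exact ⟨⟨j, h1⟩, h⟩

theorem total_eq : MO (fun j : S => (L j.1).Λ) (fun j : S => d j.1) = total L d S := by
  funext t
  unfold MO total
  rw [← Finset.sum_coe_sort S]
  rfl

theorem central_eq : rO (fun j : S => (L j.1).Λ) (fun j : S => d j.1) = total L d S 0 := by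
  unfold rO total
  rw [← Finset.sum_coe_sort S]
  refine Finset.sum_congr rfl fun j _ => ?_
  congr 2
  unfold ordAt WL.mu
  simp

theorem grh_iff : GRHf (fun j : S => (L j.1).Λ) ↔ GRH L S := by
  unfold GRHf GRH
  constructor
  · intro h j hj
    exact h ⟨j, hj⟩
  · intro h j
    exact h j.1 j.2

theorem fam (hr : IsReal L d S) : Family (fun j : S => (L j.1).shifts) (fun j : S => (L j.1).pole) (fun j : S => (L j.1).N)
    (fun j : S => (L j.1).b) (fun j : S => (L j.1).c) (fun j : S => (L j.1).Λ) (fun j : S => d j.1) := by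
  refine ⟨fun j => (L j.1).isOne, fun n hn => ?_⟩
  have h := hr n hn
  rw [← Finset.sum_coe_sort S] at h
  exact h

theorem Vl_Sums (T : Set ℝ) (p : ℕ) : Vl (fun t : T => (t : ℝ)) p = Sums T p := by
  ext x
  rw [Vl_iff, Subtype.range_coe]
  rfl

end

/-- **The theorem.** -/
theorem result {K : Type} (L : K → LFun) (d : K → ℕ) (hd : ∀ j, 1 ≤ d j) (S S' : Finset K) (hr : IsReal L d S) (hr' : IsReal L d S') :
    ∃ c c' : ℝ, IsConst L d S c ∧ IsConst L d S' c' ∧
      (Bounded (A L d S c) ↔ GRH L S) ∧ (Bounded (A L d S' c') ↔ GRH L S') ∧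
      (GRH L S → GRH L S' →
        Tendsto (mean fun u => (A L d S c u - 4 * total L d S 0) * (A L d S' c' u - 4 * total L d S' 0)) (𝓝[>] 0)
          (𝓝 (∑' t : ↥(Ords L S ∩ Ords L S'),
            2 * ((total L d S t / (1 / 4 + (t : ℝ) ^ 2)) * (total L d S' t / (1 / 4 + (t : ℝ) ^ 2))))) ∧
        ∀ p p' : ℕ, ∃ E E₁ E₂ : ℝ,
          Tendsto (mean fun u => (A L d S c u - 4 * total L d S 0) ^ p * (A L d S' c' u - 4 * total L d S' 0) ^ p') (𝓝[>] 0) (𝓝 E) ∧
          Tendsto (mean fun u => (A L d S c u - 4 * total L d S 0) ^ p) (𝓝[>] 0) (𝓝 E₁) ∧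
          Tendsto (mean fun u => (A L d S' c' u - 4 * total L d S' 0) ^ p') (𝓝[>] 0) (𝓝 E₂) ∧
          0 ≤ E₁ * E₂ ∧ E₁ * E₂ ≤ E ∧
          (E = E₁ * E₂ ↔ ∀ x ∈ Sums (Ords L S) p, x ∈ Sums (Ords L S') p' → x = 0)) ∧
      (Bounded (A L d S c) ∧ Bounded (A L d S' c') ∧ Independent (A L d S c) (A L d S' c') ↔
        GRH L S ∧ GRH L S' ∧ Unlinked (Ords L S) (Ords L S')) ∧
      (Disjoint S S' → (LinearIndependent ℚ fun p : Zeros L => p.1.2.im) → Unlinked (Ords L S) (Ords L S')) := by
  have F := fam L d S hr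
  have F' := fam L d S' hr'
  have hl : ∀ n, |lamF (fun j : S => (L j.1).c) (fun j : S => d j.1) n| ≤
      dF (fun j : S => (L j.1).shifts) (fun j : S => d j.1) * ArithmeticFunction.vonMangoldt n := by
    obtain ⟨w, hD⟩ := F.rd
    exact hD.lam_le
  have hl' : ∀ n, |lamF (fun j : S' => (L j.1).c) (fun j : S' => d j.1) n| ≤
      dF (fun j : S' => (L j.1).shifts) (fun j : S' => d j.1) * ArithmeticFunction.vonMangoldt n := by
    obtain ⟨w, hD⟩ := F'.rd
    exact hD.lam_le
  have k := fam_cor F F' (fun j => hd j.1) (fun j => hd j.1) hl (cl_refl _) hl' (cl_refl _)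
  rw [m_eq, m_eq, lam_eq, lam_eq, ords_eq, ords_eq, total_eq, total_eq, central_eq, central_eq, grh_iff, grh_iff] at k
  simp_rw [Vl_Sums] at k
  obtain ⟨c, c', k1, k2, k3, k4, k5, k6⟩ := k
  exact ⟨c, c', k1, k2, k3, k4, k5, k6, fun hd h => li_unlinked L S S' hd h⟩

end Pool.Agent.Results.MP_0f5a55_nt.AsymptoticIndependence
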