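import Pool.Agent.Run7.h278.LG.Str
import Pool.Agent.Run7.h278.LG.RateD

set_option autoImplicit false

/-!
# Effective linear independence of the zeros of Artin L-functions and the rate of convergence of moments

Let `F/ℚ` be a finite Galois extension for which Artin's conjecture holds, with positive integers `d_χ = d_χ̄`, and
`A(u) = e^(u/2) (∑_{n ≤ e^u} λ(n) (1/n - e^(-u)) - m u + c)` where `-∑_χ d_χ L'/L(s, χ) = ∑ λ(n) n^(-s)`, `m` is the
multiplicity of the pole and `c` the constant for which `m/(σ - 1) - ∑ λ(n) n^(-σ) → c - m` as `σ → 1+`.  Let `r` be the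
weighted order at `1/2` and `V δ = δ ∫_0^∞ e^(-δ u) (A(u) - 4 r)^(2K) du`.  Then `V δ` is finite and converges for
`δ → 0+` with a rate `O(δ^c')`, `c' > 0`, exactly if the Riemann hypothesis holds for all `L(s, χ)` and the sums of `2K`
numbers `±γ`, `γ ≤ X` in the set of the ordinates, are zero or at least a power `X^(-A)`.  The limit is for every `K` the
moment for independent phases, over the multiset `Γ_F`, and the rate is a power for every `K`, exactly if the Riemann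
hypothesis holds for all `L(s, χ)`, the multiset `Γ_F` is linearly independent over `ℚ` and those bounds hold for sums of
every fixed length.  For abelian `F` nothing is assumed.
-/

namespace Pool.Agent.Results.MP_0f5a55_nt.EffectiveIndependence

open Filter Topology MeasureTheory Set DirichletCharacter
open scoped ENNReal ComplexConjugate
open Run7.h278.LG (LFun ordAt)

/-- the function `A(u)` for the coefficients `lam`, the pole order `m` and the constant `c` -/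
noncomputable def A (lam : ℕ → ℝ) (m c u : ℝ) : ℝ :=
  Real.exp (u / 2) * (∑ n ∈ Finset.Icc 1 ⌊Real.exp u⌋₊, lam n * (1 / (n : ℝ) - Real.exp (-u)) - m * u + c)

/-- the Abel mean of `(A(u) - k)^(2K)` -/
noncomputable def V (lam : ℕ → ℝ) (m c k : ℝ) (K : ℕ) (δ : ℝ) : ℝ≥0∞ :=
  ∫⁻ u in Ioi (0 : ℝ), ENNReal.ofReal (δ * Real.exp (-δ * u) * (A lam m c u - k) ^ (2 * K))

/-- the Dirichlet series of `lam` -/
noncomputable def D (lam : ℕ → ℝ) (σ : ℝ) : ℝ := ∑' n : ℕ, lam n / (n : ℝ) ^ σ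

/-- `v` is finite and converges to `L` with the rate `O(δ^c)` -/
def Rate (v : ℝ → ℝ≥0∞) (L c : ℝ) : Prop := ∃ C : ℝ, ∀ δ : ℝ, 0 < δ → δ < 1 → v δ < ⊤ ∧ |(v δ).toReal - L| ≤ C * δ ^ c

/-- the sums of `p` numbers `±γ` with `γ ∈ T`, `γ ≤ X` are zero or at least `c X^(-a)` in absolute value -/
def Effective (T : Set ℝ) (p : ℕ) (a : ℝ) : Prop := ∃ c : ℝ, 0 < c ∧ ∀ X : ℝ, 1 ≤ X → ∀ f : Fin p → ℝ,
  (∀ i, |f i| ∈ T ∧ |f i| ≤ X) → ∑ i, f i ≠ 0 → c * X ^ (-a) ≤ |∑ i, f i|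

/-- the `2K`-th moment for independent phases and the weights `w` -/
noncomputable def moment {ι : Type} (w : ι → ℝ) (K : ℕ) : ℝ :=
  (2 * K).factorial * ∑' n : {n : ι →₀ ℕ // n.degree = K}, (n.1.prod fun x k => w x ^ k / (k.factorial : ℝ)) ^ 2

/-! ### Abelian fields -/

section abelian

variable (q : ℕ) [NeZero q] (H : Subgroup (ZMod q)ˣ)

/-- the Dirichlet characters modulo `q` which are trivial on `H`: the characters of the Galois group of the
subfield `F` of `ℚ(ζ_q)` fixed by `H` -/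
abbrev Chars : Type := {χ : DirichletCharacter ℂ q // ∀ h ∈ H, χ (h : ZMod q) = 1}

open Classical in
/-- `[(ℤ/q)ˣ : H] Λ(n)` if `n` modulo `q` belongs to `H`, otherwise `0` -/
noncomputable def lamH (n : ℕ) : ℝ :=
  if ∃ h ∈ H, ((h : (ZMod q)ˣ) : ZMod q) = (n : ZMod q) then H.index * ArithmeticFunction.vonMangoldt n else 0

/-- the pairs of a character of `F` and a zero `ρ`, `0 < Re ρ < 1`, `Im ρ > 0`, of its L-function -/
abbrev ZerosH : Type := {p : Chars q H × ℂ // 0 < p.2.re ∧ p.2.re < 1 ∧ 0 < p.2.im ∧ LFunction p.1.1 p.2 = 0}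

/-- the same, repeated according to the order of the zero -/
abbrev MultiH : Type := Σ p : ZerosH q H, Fin (ordAt (LFunction p.1.1.1) p.1.2)

/-- the generalized Riemann hypothesis for the characters of `F` -/
def GRHH : Prop := ∀ (χ : Chars q H) (ρ : ℂ), 0 < ρ.re → ρ.re < 1 → LFunction χ.1 ρ = 0 → ρ.re = 1 / 2

/-- the total order of vanishing at `1/2` -/
noncomputable def centralH : ℝ :=
  ∑ᶠ χ : Chars q H, (ordAt (LFunction χ.1) (1 / 2) : ℝ)

/-- the set of the ordinates -/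
def OrdsH : Set ℝ := {t : ℝ | 0 < t ∧ ∃ χ : Chars q H, LFunction χ.1 (1 / 2 + t * Complex.I) = 0}

end abelian

/-! ### Families of L-functions with Artin's conjecture -/

section families

variable {J : Type} [Fintype J] (L : J → LFun) (d : J → ℕ)

/-- the coefficients of `-∑ d_j L_j'/L_j` -/
noncomputable def lam (n : ℕ) : ℝ := ArithmeticFunction.vonMangoldt n * (∑ j, (d j : ℂ) * (L j).c n).re

/-- the total order of the pole at `1` -/
noncomputable def pole : ℝ := ∑ j, (d j : ℝ) * (L j).pole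

/-- the pairs of a member of the family and a zero in the upper half plane of its completion -/
abbrev Zeros : Type := {p : J × ℂ // 0 < p.2.im ∧ (L p.1).Λ p.2 = 0}

/-- the same, repeated according to the order of the zero -/
abbrev Multi : Type := Σ p : Zeros L, Fin (ordAt (L p.1.1).Λ p.1.2)

/-- the Riemann hypothesis for the members of the family -/
def GRH : Prop := ∀ (j : J) (ρ : ℂ), (L j).Λ ρ = 0 → ρ.re = 1 / 2

/-- the weighted order of vanishing at `1/2` -/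
noncomputable def central : ℝ := ∑ j, (d j : ℝ) * ordAt (L j).Λ (1 / 2)

/-- the set of the ordinates -/
def Ords : Set ℝ := {t : ℝ | 0 < t ∧ ∃ j, (L j).Λ (1 / 2 + t * Complex.I) = 0}

end families

/-! ### Proofs -/

open Run7.h278.LG Run7.h278

section

variable (q : ℕ) [NeZero q] (H : Subgroup (ZMod q)ˣ)

theorem lam_eq : lamD (fun χ : Ann H => χ.1) (fun _ => 1) = lamH q H := by
  funext n
  unfold lamD lamH
  have h1 : ∑ χ : Ann H, (((1 : ℕ) : ℂ)) * χ.1 (n : ZMod q) = ∑ χ : Ann H, χ.1 (n : ZMod q) := by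
    refine Finset.sum_congr rfl fun χ _ => ?_
    rw [Nat.cast_one, one_mul]
  rw [h1, sum_Ann]
  split_ifs
  · rw [Complex.natCast_re, mul_comm]
  · simp

theorem m_eq : mD (fun χ : Ann H => χ.1) (fun _ => 1) = 1 := by
  classical
  unfold mD
  have h1 : ∀ χ : Ann H, ((1 : ℕ) : ℝ) * (if χ.1 = 1 then (1 : ℝ) else 0) =
      if χ = (⟨1, fun h _ => MulChar.one_apply (Units.isUnit h)⟩ : Ann H) then 1 else 0 := by
    intro χ
    rw [Nat.cast_one, one_mul]
    refine if_congr ?_ rfl rfl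
    rw [Subtype.ext_iff]
  rw [Finset.sum_congr rfl fun χ _ => h1 χ]
  simp

theorem central_eq : rD (fun χ : Ann H => χ.1) (fun _ => 1) = centralH q H := by
  unfold rD centralH
  rw [finsum_eq_sum_of_fintype]
  refine Finset.sum_congr rfl fun χ _ => ?_
  rw [Nat.cast_one, one_mul]
  rfl

/-- abelian fields -/
theorem abelian : ∃ c : ℝ, Tendsto (fun σ : ℝ => 1 / (σ - 1) - D (lamH q H) σ) (𝓝[>] 1) (𝓝 (c - 1)) ∧
      (∀ K : ℕ, 1 ≤ K →
        (GRHH q H → Summable fun n : {n : MultiH q H →₀ ℕ // n.degree = K} =>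
          (n.1.prod fun x k => (1 / (1 / 4 + x.1.1.2.im ^ 2)) ^ k / (k.factorial : ℝ)) ^ 2) ∧
        ((∃ L c' : ℝ, 0 < c' ∧ Rate (V (lamH q H) 1 c (4 * centralH q H) K) L c') ↔
          GRHH q H ∧ ∃ a : ℝ, 0 < a ∧ Effective (OrdsH q H) (2 * K) a) ∧
        (∀ c' : ℝ, 0 < c' → c' ≤ 1 → (∃ L : ℝ, Rate (V (lamH q H) 1 c (4 * centralH q H) K) L c') →
          GRHH q H ∧ Effective (OrdsH q H) (2 * K) (4 * K / c')) ∧
        (∀ a : ℝ, 0 ≤ a → GRHH q H → Effective (OrdsH q H) (2 * K) a →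
          ∃ L : ℝ, Rate (V (lamH q H) 1 c (4 * centralH q H) K) L (1 / (2 * (a + 1))))) ∧
      ((∀ K : ℕ, 1 ≤ K → ∃ c' : ℝ, 0 < c' ∧ Rate (V (lamH q H) 1 c (4 * centralH q H) K)
          (moment (fun x : MultiH q H => 1 / (1 / 4 + x.1.1.2.im ^ 2)) K) c') ↔
        GRHH q H ∧ ((∀ p : ZerosH q H, ordAt (LFunction p.1.1.1) p.1.2 = 1) ∧
          LinearIndependent ℚ fun p : ZerosH q H => p.1.2.im) ∧ ∀ p : ℕ, ∃ a : ℝ, 0 < a ∧ Effective (OrdsH q H) p a) := by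
  obtain ⟨c, h1, h2, h3⟩ := dir_rate (q := q) (χ := fun χ : Ann H => χ.1) (d := fun _ => 1)
    (fun _ => le_rfl) (invA H) (fun _ => rfl) (fun _ => rfl)
  rw [m_eq, lam_eq] at h1
  rw [m_eq, lam_eq, central_eq] at h2 h3
  simp only [Nat.cast_one] at h2 h3
  exact ⟨c, h1, h2, h3⟩

end

section

variable {J : Type} [Fintype J] (L : J → LFun) (d : J → ℕ)

/-- families -/
theorem families (hd : ∀ j, 1 ≤ d j) (hr : ∀ n, ArithmeticFunction.vonMangoldt n ≠ 0 → (∑ j, (d j : ℂ) * (L j).c n).im = 0) :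
    ∃ c : ℝ, Tendsto (fun σ : ℝ => pole L d / (σ - 1) - D (lam L d) σ) (𝓝[>] 1) (𝓝 (c - pole L d)) ∧
      (∀ K : ℕ, 1 ≤ K →
        (GRH L → Summable fun n : {n : Multi L →₀ ℕ // n.degree = K} =>
          (n.1.prod fun x k => ((d x.1.1.1 : ℝ) / (1 / 4 + x.1.1.2.im ^ 2)) ^ k / (k.factorial : ℝ)) ^ 2) ∧
        ((∃ ℓ c' : ℝ, 0 < c' ∧ Rate (V (lam L d) (pole L d) c (4 * central L d) K) ℓ c') ↔
          GRH L ∧ ∃ a : ℝ, 0 < a ∧ Effective (Ords L) (2 * K) a) ∧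
        (∀ c' : ℝ, 0 < c' → c' ≤ 1 → (∃ ℓ : ℝ, Rate (V (lam L d) (pole L d) c (4 * central L d) K) ℓ c') →
          GRH L ∧ Effective (Ords L) (2 * K) (4 * K / c')) ∧
        (∀ a : ℝ, 0 ≤ a → GRH L → Effective (Ords L) (2 * K) a →
          ∃ ℓ : ℝ, Rate (V (lam L d) (pole L d) c (4 * central L d) K) ℓ (1 / (2 * (a + 1))))) ∧
      ((∀ K : ℕ, 1 ≤ K → ∃ c' : ℝ, 0 < c' ∧ Rate (V (lam L d) (pole L d) c (4 * central L d) K)
          (moment (fun x : Multi L => (d x.1.1.1 : ℝ) / (1 / 4 + x.1.1.2.im ^ 2)) K) c') ↔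
        GRH L ∧ ((∀ p : Zeros L, ordAt (L p.1.1).Λ p.1.2 = 1) ∧ LinearIndependent ℚ fun p : Zeros L => p.1.2.im) ∧
          ∀ p : ℕ, ∃ a : ℝ, 0 < a ∧ Effective (Ords L) p a) := by
  have F : Family (fun j => (L j).shifts) (fun j => (L j).pole) (fun j => (L j).N) (fun j => (L j).b) (fun j => (L j).c)
      (fun j => (L j).Λ) d := ⟨fun j => (L j).isOne, hr⟩
  have hl : ∀ n, |lamF (fun j => (L j).c) d n| ≤ dF (fun j => (L j).shifts) d * ArithmeticFunction.vonMangoldt n := by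
    obtain ⟨w, hD⟩ := F.rd
    exact hD.lam_le
  exact F.rate3 hd hl (cl_refl _)

end

/-- **The theorem.** -/
theorem result :
    (∀ (q : ℕ) [NeZero q] (H : Subgroup (ZMod q)ˣ),
      ∃ c : ℝ, Tendsto (fun σ : ℝ => 1 / (σ - 1) - D (lamH q H) σ) (𝓝[>] 1) (𝓝 (c - 1)) ∧
      (∀ K : ℕ, 1 ≤ K →
        (GRHH q H → Summable fun n : {n : MultiH q H →₀ ℕ // n.degree = K} =>
          (n.1.prod fun x k => (1 / (1 / 4 + x.1.1.2.im ^ 2)) ^ k / (k.factorial : ℝ)) ^ 2) ∧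
        ((∃ L c' : ℝ, 0 < c' ∧ Rate (V (lamH q H) 1 c (4 * centralH q H) K) L c') ↔
          GRHH q H ∧ ∃ a : ℝ, 0 < a ∧ Effective (OrdsH q H) (2 * K) a) ∧
        (∀ c' : ℝ, 0 < c' → c' ≤ 1 → (∃ L : ℝ, Rate (V (lamH q H) 1 c (4 * centralH q H) K) L c') →
          GRHH q H ∧ Effective (OrdsH q H) (2 * K) (4 * K / c')) ∧
        (∀ a : ℝ, 0 ≤ a → GRHH q H → Effective (OrdsH q H) (2 * K) a →
          ∃ L : ℝ, Rate (V (lamH q H) 1 c (4 * centralH q H) K) L (1 / (2 * (a + 1))))) ∧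
      ((∀ K : ℕ, 1 ≤ K → ∃ c' : ℝ, 0 < c' ∧ Rate (V (lamH q H) 1 c (4 * centralH q H) K)
          (moment (fun x : MultiH q H => 1 / (1 / 4 + x.1.1.2.im ^ 2)) K) c') ↔
        GRHH q H ∧ ((∀ p : ZerosH q H, ordAt (LFunction p.1.1.1) p.1.2 = 1) ∧
          LinearIndependent ℚ fun p : ZerosH q H => p.1.2.im) ∧ ∀ p : ℕ, ∃ a : ℝ, 0 < a ∧ Effective (OrdsH q H) p a)) ∧
    (∀ (J : Type) [Fintype J] (L : J → LFun) (d : J → ℕ), (∀ j, 1 ≤ d j) →
      (∀ n, ArithmeticFunction.vonMangoldt n ≠ 0 → (∑ j, (d j : ℂ) * (L j).c n).im = 0) →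
      ∃ c : ℝ, Tendsto (fun σ : ℝ => pole L d / (σ - 1) - D (lam L d) σ) (𝓝[>] 1) (𝓝 (c - pole L d)) ∧
      (∀ K : ℕ, 1 ≤ K →
        (GRH L → Summable fun n : {n : Multi L →₀ ℕ // n.degree = K} =>
          (n.1.prod fun x k => ((d x.1.1.1 : ℝ) / (1 / 4 + x.1.1.2.im ^ 2)) ^ k / (k.factorial : ℝ)) ^ 2) ∧
        ((∃ ℓ c' : ℝ, 0 < c' ∧ Rate (V (lam L d) (pole L d) c (4 * central L d) K) ℓ c') ↔
          GRH L ∧ ∃ a : ℝ, 0 < a ∧ Effective (Ords L) (2 * K) a) ∧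
        (∀ c' : ℝ, 0 < c' → c' ≤ 1 → (∃ ℓ : ℝ, Rate (V (lam L d) (pole L d) c (4 * central L d) K) ℓ c') →
          GRH L ∧ Effective (Ords L) (2 * K) (4 * K / c')) ∧
        (∀ a : ℝ, 0 ≤ a → GRH L → Effective (Ords L) (2 * K) a →
          ∃ ℓ : ℝ, Rate (V (lam L d) (pole L d) c (4 * central L d) K) ℓ (1 / (2 * (a + 1))))) ∧
      ((∀ K : ℕ, 1 ≤ K → ∃ c' : ℝ, 0 < c' ∧ Rate (V (lam L d) (pole L d) c (4 * central L d) K)
          (moment (fun x : Multi L => (d x.1.1.1 : ℝ) / (1 / 4 + x.1.1.2.im ^ 2)) K) c') ↔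
        GRH L ∧ ((∀ p : Zeros L, ordAt (L p.1.1).Λ p.1.2 = 1) ∧ LinearIndependent ℚ fun p : Zeros L => p.1.2.im) ∧
          ∀ p : ℕ, ∃ a : ℝ, 0 < a ∧ Effective (Ords L) p a)) :=
  ⟨fun q _ H => abelian q H, fun _ _ L d hd hr => families L d hd hr⟩

end Pool.Agent.Results.MP_0f5a55_nt.EffectiveIndependence
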