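import Pool.Agent.Run7.h278.LG.Str

set_option autoImplicit false

/-!
# A mean value over prime ideals which detects rational relations between the zeros of Artin L-functions

Let `F/ℚ` be a finite Galois extension for which Artin's conjecture holds, and choose a positive integer `d_χ` for
every irreducible character, with `d_χ = d_χ̄` (for example `d_χ = χ(1)`; the function below is then formed with the prime
ideals of `F`).  Let `A(u) = e^(u/2) (∑_{n ≤ e^u} λ(n) (1/n - e^(-u)) - m u + c)` where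
`-∑_χ d_χ L'/L(s, χ) = ∑ λ(n) n^(-s)`, `m` is the multiplicity of the pole and `c` the constant for which
`m/(σ - 1) - ∑ λ(n) n^(-σ) → c - m` as `σ → 1+`.  For every `s > 0` the mean value `δ ∫_0^∞ e^(-δ u) cosh (s A(u)) du`
has a limit `L` in `[0, ∞]` as `δ → 0+`; it is finite exactly if the Riemann hypothesis holds for all `L(s, χ)`; it is
never smaller than `B = cosh (4 s r) ∏ I_0 (2 s d_χ / (1/4 + γ²))`, `r` the weighted order at `1/2`, the product over the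
multiset `Γ_F`; and it is equal to `B` exactly if the Riemann hypothesis holds for all `L(s, χ)` and the multiset `Γ_F` is
linearly independent over `ℚ`.  For abelian `F` nothing is assumed.
-/

namespace Pool.Agent.Results.MP_0f5a55_nt.ExponentialMoments

open Filter Topology MeasureTheory Set DirichletCharacter
open scoped ENNReal ComplexConjugate
open Run7.h278.LG (LFun ordAt)

/-- the modified Bessel function `I_0` -/
noncomputable def I0 (y : ℝ) : ℝ := ∑' k : ℕ, ((y / 2) ^ k / (k.factorial : ℝ)) ^ 2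

/-- the function `A(u)` for the coefficients `lam`, the pole order `m` and the constant `c` -/
noncomputable def A (lam : ℕ → ℝ) (m c u : ℝ) : ℝ :=
  Real.exp (u / 2) * (∑ n ∈ Finset.Icc 1 ⌊Real.exp u⌋₊, lam n * (1 / (n : ℝ) - Real.exp (-u)) - m * u + c)

/-- the Abel mean of `cosh (s A(u))` -/
noncomputable def M (lam : ℕ → ℝ) (m c s δ : ℝ) : ℝ≥0∞ :=
  ∫⁻ u in Ioi (0 : ℝ), ENNReal.ofReal (δ * Real.exp (-δ * u) * Real.cosh (s * A lam m c u))

/-- the Dirichlet series of `lam` -/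
noncomputable def D (lam : ℕ → ℝ) (σ : ℝ) : ℝ := ∑' n : ℕ, lam n / (n : ℝ) ^ σ

/-! ### Abelian fields -/

section abelian

variable (q : ℕ) [NeZero q] (H : Subgroup (ZMod q)ˣ)

/-- the Dirichlet characters modulo `q` which are trivial on `H`: the characters of the Galois group of the
subfield `F` of `ℚ(ζ_q)` fixed by `H` -/
abbrev Chars : Type := {χ : DirichletCharacter ℂ q // ∀ h ∈ H, χ (h : ZMod q) = 1}

open Classical in
/-- `[(ℤ/q)ˣ : H] Λ(n)` if `n` modulo `q` belongs to `H`, otherwise `0` -/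
noncomputable def lamH (n : ℕ) : ℝ :=
  if ∃ h ∈ H, ((h : (ZMod q)ˣ) : ZMod q) = (n : ZMod q) then H.index * ArithmeticFunction.vonMangoldt n else 0

/-- the pairs of a character of `F` and a zero `ρ`, `0 < Re ρ < 1`, `Im ρ > 0`, of its L-function -/
abbrev ZerosH : Type := {p : Chars q H × ℂ // 0 < p.2.re ∧ p.2.re < 1 ∧ 0 < p.2.im ∧ LFunction p.1.1 p.2 = 0}

/-- the generalized Riemann hypothesis for the characters of `F` -/
def GRHH : Prop := ∀ (χ : Chars q H) (ρ : ℂ), 0 < ρ.re → ρ.re < 1 → LFunction χ.1 ρ = 0 → ρ.re = 1 / 2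

/-- the total order of vanishing at `1/2` -/
noncomputable def centralH : ℝ :=
  ∑ᶠ χ : Chars q H, (ordAt (LFunction χ.1) (1 / 2) : ℝ)

/-- the lower bound -/
noncomputable def boundH (s : ℝ) : ℝ :=
  Real.cosh (4 * s * centralH q H) * ∏' p : ZerosH q H, I0 (2 * s / (1 / 4 + p.1.2.im ^ 2)) ^ ordAt (LFunction p.1.1.1) p.1.2

end abelian

/-! ### Families of L-functions with Artin's conjecture -/

section families

variable {J : Type} [Fintype J] (L : J → LFun) (d : J → ℕ)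

/-- the coefficients of `-∑ d_j L_j'/L_j` -/
noncomputable def lam (n : ℕ) : ℝ := ArithmeticFunction.vonMangoldt n * (∑ j, (d j : ℂ) * (L j).c n).re

/-- the total order of the pole at `1` -/
noncomputable def pole : ℝ := ∑ j, (d j : ℝ) * (L j).pole

/-- the pairs of a member of the family and a zero in the upper half plane of its completion -/
abbrev Zeros : Type := {p : J × ℂ // 0 < p.2.im ∧ (L p.1).Λ p.2 = 0}

/-- the Riemann hypothesis for the members of the family -/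
def GRH : Prop := ∀ (j : J) (ρ : ℂ), (L j).Λ ρ = 0 → ρ.re = 1 / 2

/-- the weighted order of vanishing at `1/2` -/
noncomputable def central : ℝ := ∑ j, (d j : ℝ) * ordAt (L j).Λ (1 / 2)

/-- the lower bound -/
noncomputable def bound (s : ℝ) : ℝ :=
  Real.cosh (4 * s * central L d) * ∏' p : Zeros L, I0 (2 * s * d p.1.1 / (1 / 4 + p.1.2.im ^ 2)) ^ ordAt (L p.1.1).Λ p.1.2

/-- the distinct positive ordinates on the critical line -/
abbrev Ords : Type := {t : ℝ // 0 < t ∧ ∃ j, (L j).Λ (1 / 2 + t * Complex.I) = 0}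

/-- the weighted multiplicity of an ordinate -/
noncomputable def total (t : ℝ) : ℝ := ∑ j, (d j : ℝ) * ordAt (L j).Λ (1 / 2 + t * Complex.I)

/-- the lower bound with the distinct ordinates -/
noncomputable def bound' (s : ℝ) : ℝ :=
  Real.cosh (4 * s * central L d) * ∏' t : Ords L, I0 (2 * s * total L d t / (1 / 4 + (t : ℝ) ^ 2))

end families

open Run7.h278 in
theorem I0_J (w : ℝ) : I0 (2 * w) = LM.J w := by
  unfold I0 LM.J
  refine tsum_congr fun k => ?_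
  rw [mul_div_cancel_left₀ _ two_ne_zero]

/-! ### Proofs -/

open Run7.h278.LG Run7.h278

section

variable (q : ℕ) [NeZero q] (H : Subgroup (ZMod q)ˣ)

theorem lam_eq : lamD (fun χ : Ann H => χ.1) (fun _ => 1) = lamH q H := by
  funext n
  unfold lamD lamH
  have h1 : ∑ χ : Ann H, (((1 : ℕ) : ℂ)) * χ.1 (n : ZMod q) = ∑ χ : Ann H, χ.1 (n : ZMod q) := by
    refine Finset.sum_congr rfl fun χ _ => ?_
    rw [Nat.cast_one, one_mul]
  rw [h1, sum_Ann]
  split_ifs
  · rw [Complex.natCast_re, mul_comm]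
  · simp

theorem m_eq : mD (fun χ : Ann H => χ.1) (fun _ => 1) = 1 := by
  classical
  unfold mD
  have h1 : ∀ χ : Ann H, ((1 : ℕ) : ℝ) * (if χ.1 = 1 then (1 : ℝ) else 0) =
      if χ = (⟨1, fun h _ => MulChar.one_apply (Units.isUnit h)⟩ : Ann H) then 1 else 0 := by
    intro χ
    rw [Nat.cast_one, one_mul]
    refine if_congr ?_ rfl rfl
    rw [Subtype.ext_iff]
  rw [Finset.sum_congr rfl fun χ _ => h1 χ]
  simp

theorem central_eq : rD (fun χ : Ann H => χ.1) (fun _ => 1) = centralH q H := by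
  unfold rD centralH
  rw [finsum_eq_sum_of_fintype]
  refine Finset.sum_congr rfl fun χ _ => ?_
  rw [Nat.cast_one, one_mul]
  rfl

theorem fun_eq (s : ℝ) : (fun p : PD (fun χ : Ann H => χ.1) =>
      (LM.J (s * (((1 : ℕ) : ℝ) / (1 / 4 + p.1.2.im ^ 2)))) ^ analyticOrderNatAt (LFunction p.1.1.1) p.1.2) =
    fun p : ZerosH q H => I0 (2 * s / (1 / 4 + p.1.2.im ^ 2)) ^ ordAt (LFunction p.1.1.1) p.1.2 := by
  funext p
  have e : 2 * s / (1 / 4 + p.1.2.im ^ 2) = 2 * (s * (((1 : ℕ) : ℝ) / (1 / 4 + p.1.2.im ^ 2))) := by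
    push_cast
    ring
  rw [e, I0_J]
  rfl

/-- abelian fields -/
theorem abelian : ∃ c : ℝ, Tendsto (fun σ : ℝ => 1 / (σ - 1) - D (lamH q H) σ) (𝓝[>] 1) (𝓝 (c - 1)) ∧
      ∀ s : ℝ, 0 < s →
        (GRHH q H → Multipliable fun p : ZerosH q H => I0 (2 * s / (1 / 4 + p.1.2.im ^ 2)) ^ ordAt (LFunction p.1.1.1) p.1.2) ∧
        ∃ L : ℝ≥0∞, Tendsto (M (lamH q H) 1 c s) (𝓝[>] 0) (𝓝 L) ∧
          (L < ⊤ ↔ GRHH q H) ∧
          ENNReal.ofReal (boundH q H s) ≤ L ∧
          (L = ENNReal.ofReal (boundH q H s) ↔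
            GRHH q H ∧ (∀ p : ZerosH q H, ordAt (LFunction p.1.1.1) p.1.2 = 1) ∧
              LinearIndependent ℚ fun p : ZerosH q H => p.1.2.im) := by
  obtain ⟨c, h1, h2⟩ := dir_main (q := q) (χ := fun χ : Ann H => χ.1) (d := fun _ => 1)
    (fun _ => le_rfl) (invA H) (fun _ => rfl) (fun _ => rfl)
  rw [m_eq, lam_eq] at h1 h2
  refine ⟨c, h1, fun s hs => ?_⟩
  obtain ⟨h3, L, h4, h5, h6, h7, -, -⟩ := h2 s hs
  have eb : Real.cosh (4 * s * rD (fun χ : Ann H => χ.1) (fun _ => 1)) *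
      CD (fun χ : Ann H => χ.1) (fun _ => 1) s = boundH q H s := by
    unfold boundH CD
    rw [central_eq]
    congr 1
    exact congrArg tprod (fun_eq q H s)
  rw [eb] at h6 h7
  refine ⟨fun hG => ?_, L, h4, h5, h6, h7⟩
  have h10 := h3 hG
  rw [← fun_eq]
  exact h10.1

end

section

variable {J : Type} [Fintype J] (L : J → LFun) (d : J → ℕ)

omit [Fintype J] in
theorem fun_eq2 (s : ℝ) : (fun p : PO (fun j => (L j).Λ) =>
      (LM.J (s * ((d p.1.1 : ℝ) / (1 / 4 + p.1.2.im ^ 2)))) ^ WL.mu (L p.1.1).Λ p.1.2) =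
    fun p : Zeros L => I0 (2 * s * d p.1.1 / (1 / 4 + p.1.2.im ^ 2)) ^ ordAt (L p.1.1).Λ p.1.2 := by
  funext p
  have e : 2 * s * d p.1.1 / (1 / 4 + p.1.2.im ^ 2) = 2 * (s * ((d p.1.1 : ℝ) / (1 / 4 + p.1.2.im ^ 2))) := by
    ring
  rw [e, I0_J]
  rfl

theorem fun_eq3 (s : ℝ) : (fun t : TO (fun j => (L j).Λ) => LM.J (s * (MO (fun j => (L j).Λ) d t / (1 / 4 + (t : ℝ) ^ 2)))) =
    fun t : Ords L => I0 (2 * s * total L d t / (1 / 4 + (t : ℝ) ^ 2)) := by
  funext t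
  have e : 2 * s * total L d t / (1 / 4 + (t : ℝ) ^ 2) = 2 * (s * (MO (fun j => (L j).Λ) d t / (1 / 4 + (t : ℝ) ^ 2))) := by
    have : total L d t = MO (fun j => (L j).Λ) d t := rfl
    rw [this]
    ring
  rw [e, I0_J]

/-- families -/
theorem families (hd : ∀ j, 1 ≤ d j) (hr : ∀ n, ArithmeticFunction.vonMangoldt n ≠ 0 → (∑ j, (d j : ℂ) * (L j).c n).im = 0) :
    ∃ c : ℝ, Tendsto (fun σ : ℝ => pole L d / (σ - 1) - D (lam L d) σ) (𝓝[>] 1) (𝓝 (c - pole L d)) ∧
      ∀ s : ℝ, 0 < s →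
        (GRH L → (Multipliable fun p : Zeros L => I0 (2 * s * d p.1.1 / (1 / 4 + p.1.2.im ^ 2)) ^ ordAt (L p.1.1).Λ p.1.2) ∧
          Multipliable fun t : Ords L => I0 (2 * s * total L d t / (1 / 4 + (t : ℝ) ^ 2))) ∧
        ∃ ℓ : ℝ≥0∞, Tendsto (M (lam L d) (pole L d) c s) (𝓝[>] 0) (𝓝 ℓ) ∧
          (ℓ < ⊤ ↔ GRH L) ∧
          ENNReal.ofReal (bound L d s) ≤ ℓ ∧
          (ℓ = ENNReal.ofReal (bound L d s) ↔
            GRH L ∧ (∀ p : Zeros L, ordAt (L p.1.1).Λ p.1.2 = 1) ∧ LinearIndependent ℚ fun p : Zeros L => p.1.2.im) ∧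
          ENNReal.ofReal (bound' L d s) ≤ ℓ ∧
          (ℓ = ENNReal.ofReal (bound' L d s) ↔ GRH L ∧ LinearIndependent ℚ fun t : Ords L => (t : ℝ)) := by
  have F : Family (fun j => (L j).shifts) (fun j => (L j).pole) (fun j => (L j).N) (fun j => (L j).b) (fun j => (L j).c)
      (fun j => (L j).Λ) d := ⟨fun j => (L j).isOne, hr⟩
  have hl : ∀ n, |lamF (fun j => (L j).c) d n| ≤ dF (fun j => (L j).shifts) d * ArithmeticFunction.vonMangoldt n := by
    obtain ⟨w, hD⟩ := F.rd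
    exact hD.lam_le
  obtain ⟨c, h1, h2⟩ := F.main hd hl (cl_refl _)
  refine ⟨c, h1, fun s hs => ?_⟩
  obtain ⟨h3, ℓ, h4, h5, h6, h7, h8, h9⟩ := h2 s hs
  have eb : Real.cosh (4 * s * rO (fun j => (L j).Λ) d) * CP (fun j => (L j).Λ) d s = bound L d s := by
    unfold bound CP
    congr 1
    exact congrArg tprod (fun_eq2 L d s)
  have eb' : Real.cosh (4 * s * rO (fun j => (L j).Λ) d) * CT (fun j => (L j).Λ) d s = bound' L d s := by
    unfold bound' CT
    congr 1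
    exact congrArg tprod (fun_eq3 L d s)
  rw [eb] at h6 h7
  rw [eb'] at h8 h9
  refine ⟨fun hG => ?_, ℓ, h4, h5, h6, h7, h8, h9⟩
  have h10 := h3 hG
  exact ⟨by rw [← fun_eq2]; exact h10.1, by rw [← fun_eq3]; exact h10.2⟩

end

/-- **The theorem.** -/
theorem result :
    (∀ (q : ℕ) [NeZero q] (H : Subgroup (ZMod q)ˣ),
      ∃ c : ℝ, Tendsto (fun σ : ℝ => 1 / (σ - 1) - D (lamH q H) σ) (𝓝[>] 1) (𝓝 (c - 1)) ∧
      ∀ s : ℝ, 0 < s →
        (GRHH q H → Multipliable fun p : ZerosH q H => I0 (2 * s / (1 / 4 + p.1.2.im ^ 2)) ^ ordAt (LFunction p.1.1.1) p.1.2) ∧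
        ∃ L : ℝ≥0∞, Tendsto (M (lamH q H) 1 c s) (𝓝[>] 0) (𝓝 L) ∧
          (L < ⊤ ↔ GRHH q H) ∧
          ENNReal.ofReal (boundH q H s) ≤ L ∧
          (L = ENNReal.ofReal (boundH q H s) ↔
            GRHH q H ∧ (∀ p : ZerosH q H, ordAt (LFunction p.1.1.1) p.1.2 = 1) ∧
              LinearIndependent ℚ fun p : ZerosH q H => p.1.2.im)) ∧
    (∀ (J : Type) [Fintype J] (L : J → LFun) (d : J → ℕ), (∀ j, 1 ≤ d j) →
      (∀ n, ArithmeticFunction.vonMangoldt n ≠ 0 → (∑ j, (d j : ℂ) * (L j).c n).im = 0) →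
      ∃ c : ℝ, Tendsto (fun σ : ℝ => pole L d / (σ - 1) - D (lam L d) σ) (𝓝[>] 1) (𝓝 (c - pole L d)) ∧
      ∀ s : ℝ, 0 < s →
        (GRH L → (Multipliable fun p : Zeros L => I0 (2 * s * d p.1.1 / (1 / 4 + p.1.2.im ^ 2)) ^ ordAt (L p.1.1).Λ p.1.2) ∧
          Multipliable fun t : Ords L => I0 (2 * s * total L d t / (1 / 4 + (t : ℝ) ^ 2))) ∧
        ∃ ℓ : ℝ≥0∞, Tendsto (M (lam L d) (pole L d) c s) (𝓝[>] 0) (𝓝 ℓ) ∧
          (ℓ < ⊤ ↔ GRH L) ∧
          ENNReal.ofReal (bound L d s) ≤ ℓ ∧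
          (ℓ = ENNReal.ofReal (bound L d s) ↔
            GRH L ∧ (∀ p : Zeros L, ordAt (L p.1.1).Λ p.1.2 = 1) ∧ LinearIndependent ℚ fun p : Zeros L => p.1.2.im) ∧
          ENNReal.ofReal (bound' L d s) ≤ ℓ ∧
          (ℓ = ENNReal.ofReal (bound' L d s) ↔ GRH L ∧ LinearIndependent ℚ fun t : Ords L => (t : ℝ))) :=
  ⟨fun q _ H => abelian q H, fun _ _ L d hd hr => families L d hd hr⟩

end Pool.Agent.Results.MP_0f5a55_nt.ExponentialMoments
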