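import Pool.Agent.Run7.h343.GV.Cnt

/-!
# A real number is not a common ordinate in a thin coset or a thin Galois orbit of Artin L-functions

Linear independence of the ordinates of the critical zeros of the Artin L-functions of a Galois extension of
`ℚ` implies that a real number `t ≠ 0` is an ordinate of a zero for at most one irreducible character. Here,
unconditionally: in thin families of dihedral Artin L-functions every real `t` (in a range growing with the
family) is not an ordinate for many members.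

Let `p ≥ 7` be a prime, `p ^ ν ∣ ι ^ 2 + 1` (so `p ≡ 1` mod `4`), and let `𝔭` be the prime ideal
above `p` such that `a + b i ↦ a + b ι` induces `ℤ[i] / 𝔭 ^ ν = ℤ / p ^ ν`. A primitive Dirichlet
character `ψ` mod `p ^ ν` with `ψ (ι) = 1` is in this way a primitive ray class character of `ℚ(i)` of
conductor `𝔭 ^ ν`, of finite order. The representation of `Gal(ℚ̄/ℚ)` induced by `ψ` is irreducible of
dimension two (if `ψ` is not quadratic), and its Artin L-function is `L(s, ψ) = ∑_𝔞 ψ(𝔞) N(𝔞)^(-s)`, of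
conductor `4 p ^ ν`. All the characters below belong to one Galois extension of `ℚ`.

Let `χ` be such a character, `m ≤ ν/2`, and `H` any group of characters `θ` mod `p ^ m` with `θ (ι) = 1`.
If `|H|` is larger than `(p ^ ν) ^ (1/4)` times a power of the index of `H` and of `1 + |t|`, then at least
`c (p ^ ν) ^ (-ε) |H| ^ 2 / (p ^ m + (p ^ ν) ^ (19/58))` of the `|H|` members of the coset `χ H` satisfy
`|L(1/2 + it, χ θ)| ≥ 1/16`, up to the factor `p ^ 5 (1 + |t|) ^ 3`.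

Examples: `H` = all characters `θ` mod `p ^ m` with `θ (ι) = 1` (index `4`); `H` = all the characters of
`p`-power order mod `p ^ m` (index `p - 1`): then `χ H` is the Galois orbit of `χ` over the field
`ℚ(ζ)`, `ζ` a primitive root of unity of order `(p - 1) p ^ (ν - m)`, it has only `p ^ (m - 1)` members, and for
fixed `p` every `m ≥ (1/4 + δ) ν` is allowed.

Proof. First moment with theta functions on a rotated ray: the elements of `ℤ[i]` whose residue modulo
`𝔭 ^ m` has a given `d`-th power are the four associates of one small element and elements of large norm, and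
the Gauss sums of `χ` localise modulo `𝔭 ^ m`, so that the dual side of the functional equation is of
the same form; its main term is smaller (or `1 + i` takes the place of `1`). The second moment is the
sub-Weyl bound for cosets of `MP_52e316_nt.SubWeylGaussianHecke`.
-/

set_option autoImplicit false

namespace Pool.Agent.Results.MP_0f5a55_nt.ThinCosetsCommonZeros

open Run7.h343.GI Run7.h343.GV

/-- the index of a group of characters which are trivial at `ι` is divisible by four -/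
theorem four_dvd {p ν m : ℕ} {ι : ℤ} {ϖ : GaussianInt} [NeZero (p ^ m)] (hfr : Fr p ν ι ϖ) (hm : 1 ≤ m) (hmν : m ≤ ν)
    (H : Subgroup (DirichletCharacter ℂ (p ^ m))) (hH : ∀ θ ∈ H, θ ((ι : ℤ) : ZMod (p ^ m)) = 1) : 4 ∣ H.index := by
  have hp := hfr.pr
  have h2 := sq_root hfr hmν
  have h1 : ((ι : ℤ) : ZMod (p ^ m)) ^ H.index = 1 := by
    by_contra hne
    obtain ⟨η, hη⟩ := DirichletCharacter.exists_apply_ne_one_of_hasEnoughRootsOfUnity ℂ hne
    apply hη
    have h3 := hH _ (Subgroup.pow_index_mem H η)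
    have h0 : H.index ≠ 0 := Subgroup.index_ne_zero_of_finite
    rw [MulChar.pow_apply' η h0] at h3
    rw [map_pow]
    exact h3
  have hone : (1 : ZMod (p ^ m)) ≠ -1 := by
    intro h
    have h2u : IsUnit (2 : ZMod (p ^ m)) := by
      have := Pool.Agent.Y779.R3.unit_int (r := m) hp hfr.two
      simpa using this
    have h20 : (2 : ZMod (p ^ m)) = 0 := by linear_combination h
    rw [h20] at h2u
    haveI : Fact (1 < p ^ m) := ⟨Nat.one_lt_pow (by omega) hp.one_lt⟩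
    exact not_isUnit_zero h2u
  have h4 : ((ι : ℤ) : ZMod (p ^ m)) ^ 4 = 1 := by
    have : ((ι : ℤ) : ZMod (p ^ m)) ^ 4 = (((ι : ℤ) : ZMod (p ^ m)) ^ 2) ^ 2 := by ring
    rw [this, h2]; ring
  have hord : orderOf ((ι : ℤ) : ZMod (p ^ m)) = 4 := by
    have := orderOf_eq_prime_pow (p := 2) (n := 1) (x := ((ι : ℤ) : ZMod (p ^ m))) (by
      rw [pow_one, h2]; exact Ne.symm hone) (by
      norm_num
      exact h4)
    simpa using this
  rw [← hord]
  exact orderOf_dvd_of_pow_eq_one h1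

/-- **Theorem.** For every `ε > 0` there is `C` such that for all primes `p ≥ 7`, all `m ≥ 1` and `ν ≥ 2 m`, all
`ι` with `ι ^ 2 = -1` mod `p ^ ν`, all primitive characters `χ` mod `p ^ ν` with `χ (ι) = 1` and all groups `H`
of characters `θ` mod `p ^ m` with `θ (ι) = 1` there are entire functions `L θ`, one for each character `θ`
mod `p ^ m`, with `4 L θ s = ∑_α (χ θ) (α.re + ι α.im) (N α) ^ (-s)` (sum over the Gaussian integers) for
`Re s > 1`, such that for all real `t` with `(C d ^ 2 (1 + |t|)) ^ d ≤ p ^ m` and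
`C d (1 + |t|) (p ^ ν) ^ (1/4) ≤ p ^ m`, `d` the index of `H`:
`|H| ^ 2 ≤ C p ^ 5 (1 + |t|) ^ 3 (p ^ ν) ^ ε (p ^ m + (p ^ ν) ^ (19/58)) #{θ ∈ H | 1/16 ≤ |L θ (1/2 + it)|}`. -/
theorem result : ∀ ε : ℝ, 0 < ε → ∃ C : ℝ, ∀ (p : ℕ) [Fact p.Prime], 7 ≤ p →
    ∀ (ν m : ℕ), 1 ≤ m → ∀ (hmν : 2 * m ≤ ν) (ι : ℤ), (p : ℤ) ^ ν ∣ ι ^ 2 + 1 →
    ∀ χ : DirichletCharacter ℂ (p ^ ν), χ.IsPrimitive → χ ((ι : ℤ) : ZMod (p ^ ν)) = 1 →
    ∀ H : Subgroup (DirichletCharacter ℂ (p ^ m)), (∀ θ ∈ H, θ ((ι : ℤ) : ZMod (p ^ m)) = 1) →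
    ∃ L : DirichletCharacter ℂ (p ^ m) → ℂ → ℂ,
      (∀ θ, Differentiable ℂ (L θ) ∧ ∀ s : ℂ, 1 < s.re →
        HasSum (fun α : GaussianInt =>
          (χ * DirichletCharacter.changeLevel (pow_dvd_pow p (by omega : m ≤ ν)) θ)
            ((α.re + ι * α.im : ℤ) : ZMod (p ^ ν)) * ((α.re ^ 2 + α.im ^ 2 : ℤ) : ℂ) ^ (-s)) (4 * L θ s)) ∧
      ∀ t : ℝ, (C * (H.index : ℝ) ^ 2 * (1 + |t|)) ^ H.index ≤ (p : ℝ) ^ m →
        C * H.index * (1 + |t|) * ((p : ℝ) ^ ν) ^ (1 / 4 : ℝ) ≤ (p : ℝ) ^ m →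
        (Nat.card H : ℝ) ^ 2 ≤ C * (p : ℝ) ^ 5 * (1 + |t|) ^ 3 * ((p : ℝ) ^ ν) ^ ε *
          ((p : ℝ) ^ m + ((p : ℝ) ^ ν) ^ (19 / 58 : ℝ)) *
          {θ : DirichletCharacter ℂ (p ^ m) | θ ∈ H ∧ 1 / 16 ≤ ‖L θ (1 / 2 + (t : ℂ) * Complex.I)‖}.ncard := by
  intro ε hε
  obtain ⟨C, hC0, h⟩ := Run7.h343.GV.thin_main hε
  refine ⟨C, fun p hpf hp7 ν m hm hmν ι hι χ hχ hχι H hH => ?_⟩
  have hp : p.Prime := hpf.out
  haveI : NeZero (p ^ m) := ⟨pow_ne_zero _ hp.ne_zero⟩
  have hmν' : m < ν := by omega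
  obtain ⟨ϖ, hfr⟩ := exists_fr hp (by omega) (by omega) hι
  have hex : ∀ θ : DirichletCharacter ℂ (p ^ m), ∃ L : ℂ → ℂ, Differentiable ℂ L ∧
      ∀ s : ℂ, 1 < s.re → L s = Ds
        (χ * DirichletCharacter.changeLevel (pow_dvd_pow p hmν'.le) θ) ι s :=
    fun θ => exists_L hfr (by omega) (Pool.Agent.Y766.R3.prim_mul hp hmν' hχ θ)
  choose L hL hLs using hex
  refine ⟨fun θ s => L θ s / 4, fun θ => ⟨(hL θ).div_const 4, fun s hs => ?_⟩, fun t h1 h2 => ?_⟩
  · have hsum : Summable fun α : GaussianInt =>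
        (χ * DirichletCharacter.changeLevel (pow_dvd_pow p hmν'.le) θ)
          ((red ι α : ℤ) : ZMod (p ^ ν)) * (Nn α : ℂ) ^ (-s) := by
      refine Summable.of_norm_bounded (sum_Nn hs) fun α => ?_
      by_cases h0 : α = 0
      · rw [h0, chi_zero hp (by omega), zero_mul, norm_zero, Nn_zero,
          Int.cast_zero, Real.zero_rpow (by linarith)]
      · have h1 : (0 : ℝ) < (Nn α : ℤ) := by exact_mod_cast one_le_Nn h0
        rw [norm_mul]
        have h2 : ‖(Nn α : ℂ) ^ (-s)‖ = ((Nn α : ℤ) : ℝ) ^ (-s.re) := by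
          have e1 : (Nn α : ℂ) = (((Nn α : ℤ) : ℝ) : ℂ) := by push_cast; rfl
          rw [e1, Complex.norm_cpow_eq_rpow_re_of_pos h1, Complex.neg_re]
        rw [h2]
        exact mul_le_of_le_one_left (by positivity) (DirichletCharacter.norm_le_one _ _)
    have h3 := hsum.hasSum
    have e4 : 4 * (L θ s / 4) = L θ s := by ring
    rw [e4, hLs θ s hs]
    exact h3
  · have hd : 1 ≤ H.index := Nat.one_le_iff_ne_zero.2 Subgroup.index_ne_zero_of_finite
    have h4 := four_dvd hfr hm hmν'.le H hH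
    have h3 := h p hp hp7 H.index ν m hd h4 hm hmν ι hι χ hχ hχι L hL hLs t h1 h2
    have hcard : (Nat.card H : ℝ) * H.index ≤ (p : ℝ) ^ m := by
      have k1 : Nat.card H * H.index = (p ^ m).totient := by
        rw [Subgroup.card_mul_index, DirichletCharacter.card_eq_totient_of_hasEnoughRootsOfUnity]
      have k2 : (p ^ m).totient ≤ p ^ m := Nat.totient_le _
      rw [← k1] at k2
      exact_mod_cast k2
    have hsub : {θ : DirichletCharacter ℂ (p ^ m) | (∃ η, θ = η ^ H.index) ∧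
        1 / 4 ≤ ‖L θ (1 / 2 + (t : ℂ) * Complex.I)‖}.ncard ≤
        {θ : DirichletCharacter ℂ (p ^ m) | θ ∈ H ∧ 1 / 16 ≤ ‖L θ (1 / 2 + (t : ℂ) * Complex.I) / 4‖}.ncard := by
      refine Set.ncard_le_ncard ?_ (Set.toFinite _)
      rintro θ ⟨⟨η, hη⟩, hθ⟩
      refine ⟨by rw [hη]; exact Subgroup.pow_index_mem H η, ?_⟩
      rw [norm_div]
      have : ‖(4 : ℂ)‖ = 4 := by simp
      rw [this]
      linarith
    have hsub' : (({θ : DirichletCharacter ℂ (p ^ m) | (∃ η, θ = η ^ H.index) ∧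
        1 / 4 ≤ ‖L θ (1 / 2 + (t : ℂ) * Complex.I)‖}.ncard : ℕ) : ℝ) ≤
        (({θ : DirichletCharacter ℂ (p ^ m) | θ ∈ H ∧
          1 / 16 ≤ ‖L θ (1 / 2 + (t : ℂ) * Complex.I) / 4‖}.ncard : ℕ) : ℝ) := by exact_mod_cast hsub
    have hp0 : (0 : ℝ) < p := by exact_mod_cast hp.pos
    have hd0 : (0 : ℝ) < H.index := by exact_mod_cast hd
    have ht : 0 < 1 + |t| := by positivity
    have k3 : ((Nat.card H : ℝ) * H.index) ^ 2 ≤ ((p : ℝ) ^ m) ^ 2 := by gcongr
    have k4 := k3.trans h3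
    obtain ⟨N, hN⟩ : ∃ N : ℝ, N = (({θ : DirichletCharacter ℂ (p ^ m) | (∃ η, θ = η ^ H.index) ∧
        1 / 4 ≤ ‖L θ (1 / 2 + (t : ℂ) * Complex.I)‖}.ncard : ℕ) : ℝ) := ⟨_, rfl⟩
    rw [← hN] at hsub' k4
    have k5 : (Nat.card H : ℝ) ^ 2 * (H.index : ℝ) ^ 2 ≤ (C * (p : ℝ) ^ 5 * (1 + |t|) ^ 3 * ((p : ℝ) ^ ν) ^ ε *
          ((p : ℝ) ^ m + ((p : ℝ) ^ ν) ^ (19 / 58 : ℝ)) * N) * (H.index : ℝ) ^ 2 := by
      calc _ = ((Nat.card H : ℝ) * H.index) ^ 2 := by ring
        _ ≤ _ := k4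
        _ = _ := by ring
    have k6 := le_of_mul_le_mul_right k5 (by positivity)
    refine k6.trans ?_
    gcongr

end Pool.Agent.Results.MP_0f5a55_nt.ThinCosetsCommonZeros
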